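import Pool.Agent.Helper44.LL.Main

/-!
# Homomorphic images of linear lattices: homomorphisms determined by an ideal

Let `L` be a linear lattice and `g` a homomorphism from `L` onto a lattice `M` with least element `o`, such
that `g x ≤ g y` implies `x ≤ y ⊔ i` for some `i` with `g i = o`. These are, up to isomorphism, the quotients
of `L` by its distributive ideals (the ideals `I` with `(I ∨ x) ∩ (I ∨ y) = I ∨ (x ⊓ y)` for the principal
ideals of `x` and `y`). Then `M` is linear. So all homomorphic images of a sectionally complemented linear
lattice are linear.

Proof. Let `L` be represented by commuting equivalence relations on `X`, and let `I` be the set of the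
`i` with `g i = o`, a directed set. On the set of the functions from `I` to `X` let `H x` be the relation:
for some `i` in `I` the values `u j` and `v j` are related by `x ⊔ i`, for all `j ≥ i`. This is an
equivalence relation; `H` is a homomorphism, the relations `H x` commute, and `H x ≤ H y` if and only if
`g x ≤ g y`: if not `g x ≤ g y`, then there are `u j`, `v j` which are related by `x`, but not by `y ⊔ j`, for
every `j` in `I`. So `H` factors through `g` and represents `M`.
-/

set_option autoImplicit false

namespace Pool.Agent.Results.MP_d893f2_al.DistributiveIdeals

open Pool.Agent.Helper44.LL

/-- **The quotients of linear lattices by distributive ideals are linear.** -/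
theorem result :
    (∀ (L M : Type) [Lattice L] [Lattice M] (g : LatticeHom L M) (o : M), Function.Surjective g →
      IdealDetermined g o → IsLinear L → IsLinear M) ∧
    (∀ (L M : Type) [Lattice L] [OrderBot L] [Lattice M] (g : LatticeHom L M), Function.Surjective g →
      SectionallyComplemented L → IsLinear L → IsLinear M) :=
  ⟨fun _ _ _ _ g o hg ho hL => main g hg o ho hL, fun _ _ _ _ _ g hg hs hL => sec hs g hg hL⟩

end Pool.Agent.Results.MP_d893f2_al.DistributiveIdeals
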